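import Pool.Agent.H35R3.Al.StmtsB

set_option autoImplicit false

/-! Task P1 of project ALPHA (helper35): three disjoint blocks. (helper77) -/

namespace Pool.Agent.H77R3.ALP1

open H974 H12S H973N Finset H35A

variable {M : ℕ}

lemma ne_of_Fr {ρ : ℕ} {a b : Edg} (h : Fr M ρ a b) : a ≠ b := by
  rintro rfl
  have h1 := h (0, 0)
  unfold dst shE at h1
  simp at h1
  omega

lemma disj {r : ℕ} {a b : Edg} (h : Fr M (2 * r) a b) :
    Disjoint (bT M (bp a) r) (bT M (bp b) r) := by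
  classical
  rw [Finset.disjoint_left]
  intro x hx hx'
  unfold bT at hx hx'
  rw [Finset.mem_image] at hx hx'
  obtain ⟨g, hg, hgx⟩ := hx
  obtain ⟨g', hg', hgx'⟩ := hx'
  obtain ⟨z, hz⟩ := eq_shE_of_red (M := M) (hgx'.trans hgx.symm)
  have h1 := mem_blk hg
  have h2 := mem_blk hg'
  have h3 := h z
  rw [hz] at h2
  unfold bp at h1 h2
  unfold dst shE at h3
  unfold shE at h2
  simp only at h1 h2 h3
  rw [lt_max_iff, lt_abs, lt_abs] at h3
  rcases h3 with (h3 | h3) | (h3 | h3) <;> linarith [h1.1.1, h1.1.2, h1.2.1, h1.2.2, h2.1.1, h2.1.2, h2.2.1, h2.2.2]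

lemma loc {r : ℕ} {e : Edg} {T F : Finset Edg} (hT : bT M (bp e) r ⊆ T) :
    L4T M r e F ↔ L4T M r e (F ∩ T) := by
  classical
  apply L4T_congr
  intro g hg
  rw [Finset.mem_inter]
  refine ⟨fun h => ⟨h, hT ?_⟩, fun h => h.1⟩
  unfold bT
  exact Finset.mem_image_of_mem _ hg

lemma bT_sub (hM : 0 < M) (c : ℤ × ℤ) (r : ℕ) : bT M c r ⊆ EM M := by
  classical
  intro x hx
  unfold bT at hx
  rw [Finset.mem_image] at hx
  obtain ⟨g, _, rfl⟩ := hx
  exact red_mem_EM hM g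

theorem taskP1 : TaskP1 := by
  classical
  intro q h0 h1 M r hr hrM a ha b hb c hc hab hbc hac
  have hM : 0 < M := by omega
  have ra := red_of_mem ha
  have rb := red_of_mem hb
  have rc := red_of_mem hc
  have hOk : Ok (fun _ : Edg => q) := fun _ => ⟨h0, h1⟩
  have e1 : ((r : ℤ) + 1) ≤ 2 * r := by omega
  have e2 : (r : ℤ) ≤ 2 * r := by omega
  have nab : a ≠ b := ne_of_Fr (ρ := r) (hab.mono e2)
  have nbc : b ≠ c := ne_of_Fr (ρ := r) (hbc.mono e2)
  have nac : a ≠ c := ne_of_Fr (ρ := r) (hac.mono e2)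
  have hS : ∀ e : Edg, ∀ g ∈ blk (bp e) r, red M g ∈ EM M := fun e g _ => red_mem_EM hM g
  have step1 : X3 q M a b c ≤
      PQ q (EM M) (fun F => L4T M r a F ∧ (L4T M r b F ∧ L4T M r c F)) := by
    unfold X3
    refine Pr_mono hOk ?_
    intro F _ h
    refine ⟨?_, ?_, ?_⟩
    · exact SD_L4T hr hrM rb ra rc (hab.symm.mono e1) (hac.symm.mono e2)
        (SD_rot ra rb nab nbc nac h)
    · exact SD_L4T hr hrM ra rb rc (hab.mono e1) (hbc.symm.mono e2) h
    · exact SD_L4T hr hrM ra rc rb (hac.mono e1) (hbc.mono e2) (SD_comm h)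
  have step2 : PQ q (EM M) (fun F => L4T M r a F ∧ (L4T M r b F ∧ L4T M r c F)) =
      PQ q (EM M) (L4T M r a) * PQ q (EM M) (fun F => L4T M r b F ∧ L4T M r c F) := by
    refine Pr_indep (S := bT M (bp a) r) (T := bT M (bp b) r ∪ bT M (bp c) r)
      (bT_sub hM _ _) (Finset.union_subset (bT_sub hM _ _) (bT_sub hM _ _)) ?_ ?_ ?_
    · rw [Finset.disjoint_union_right]
      exact ⟨disj hab, disj hac⟩
    · intro F _
      exact loc (Finset.Subset.refl _)
    · intro F _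
      exact and_congr (loc Finset.subset_union_left) (loc Finset.subset_union_right)
  have step3 : PQ q (EM M) (fun F => L4T M r b F ∧ L4T M r c F) =
      PQ q (EM M) (L4T M r b) * PQ q (EM M) (L4T M r c) := by
    refine Pr_indep (S := bT M (bp b) r) (T := bT M (bp c) r)
      (bT_sub hM _ _) (bT_sub hM _ _) (disj hbc) ?_ ?_
    · intro F _
      exact loc (Finset.Subset.refl _)
    · intro F _
      exact loc (Finset.Subset.refl _)
  have pa := pr_L4T h0 h1 hrM (hS a)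
  have pb := pr_L4T h0 h1 hrM (hS b)
  have pc := pr_L4T h0 h1 hrM (hS c)
  have na : 0 ≤ PQ q (EM M) (L4T M r a) := Pr_nonneg hOk _ _
  have nb : 0 ≤ PQ q (EM M) (L4T M r b) := Pr_nonneg hOk _ _
  have nc : 0 ≤ PQ q (EM M) (L4T M r c) := Pr_nonneg hOk _ _
  have n4 : 0 ≤ a4 q r := na.trans pa
  rw [step2, step3] at step1
  refine step1.trans ?_
  calc PQ q (EM M) (L4T M r a) * (PQ q (EM M) (L4T M r b) * PQ q (EM M) (L4T M r c))
      ≤ a4 q r * (a4 q r * a4 q r) :=
        mul_le_mul pa (mul_le_mul pb pc nc n4) (mul_nonneg nb nc) n4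
    _ = a4 q r ^ 3 := by ring

end Pool.Agent.H77R3.ALP1
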